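import Pool.Agent.H72.HRA.Targets

/-!
# Values of the derivatives of the basis polynomials, complex coefficients (module VALA)
-/

set_option autoImplicit false

open MvPolynomial

namespace Pool.Agent.H56.HRA

open Pool.Agent.H72.HR Pool.Agent.H72.HRA
open Pool.Agent.H72.BF (RP Gf)

theorem leib_eig {A ι : Type*} [CommRing A] [Algebra ℂ A] [DecidableEq ι]
    (D : Derivation ℂ A A) (s : Finset ι) (f e : ι → A) (h : ∀ i ∈ s, D (f i) = e i * f i) :
    D (∏ i ∈ s, f i) = (∑ i ∈ s, e i) * ∏ i ∈ s, f i := by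
  induction s using Finset.induction_on with
  | empty => simp
  | insert a s ha ih =>
    rw [Finset.prod_insert ha, Finset.sum_insert ha, Derivation.leibniz, smul_eq_mul, smul_eq_mul,
      ih fun i hi => h i (Finset.mem_insert_of_mem hi), h a (Finset.mem_insert_self a s)]
    ring

theorem leib_one {A ι : Type*} [CommRing A] [Algebra ℂ A] [Fintype ι] [DecidableEq ι]
    (D : Derivation ℂ A A) (f : ι → A) (i : ι) (h : ∀ j, j ≠ i → D (f j) = 0) :
    D (∏ j, f j) = D (f i) * ∏ j ∈ Finset.univ.erase i, f j := by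
  have h1 : D (∏ j ∈ Finset.univ.erase i, f j) = 0 := by
    rw [leib_eig D (Finset.univ.erase i) f (fun _ => 0) fun j hj => by
      rw [h j (Finset.ne_of_mem_erase hj), zero_mul]]
    simp
  rw [← Finset.mul_prod_erase Finset.univ f (Finset.mem_univ i), Derivation.leibniz, h1,
    smul_zero, zero_add, smul_eq_mul, mul_comm]

variable {ρ τ : Type} [Fintype ρ] [Fintype τ] [DecidableEq ρ] [DecidableEq τ]

theorem dv_inl (v : ρ ⊕ τ → ℂ) (i : ρ) (P : Polynomial ℂ) :
    dv kap v (Polynomial.aeval (X (Sum.inl i) : MvPolynomial (ρ ⊕ τ) ℂ) P) =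
      C (v (Sum.inl i)) * Polynomial.aeval (X (Sum.inl i)) (Polynomial.derivative P) := by
  rw [Derivation.map_aeval, smul_eq_mul, mul_comm]
  congr 1
  unfold dv
  rw [mkDerivation_X]
  simp [kap]

theorem dv_mon (v : ρ ⊕ τ → ℂ) (t : τ → ℕ) :
    dv kap v (∏ a, (X (Sum.inr a) : MvPolynomial (ρ ⊕ τ) ℂ) ^ t a) =
      C (∑ a, (t a : ℂ) * v (Sum.inr a)) * ∏ a, X (Sum.inr a) ^ t a := by
  rw [leib_eig (dv kap v) Finset.univ _ (fun a => C ((t a : ℂ) * v (Sum.inr a))), map_sum]
  intro a _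
  rw [Derivation.leibniz_pow]
  have h1 : dv kap v (X (Sum.inr a) : MvPolynomial (ρ ⊕ τ) ℂ) =
      C (v (Sum.inr a)) * X (Sum.inr a) := by
    unfold dv
    rw [mkDerivation_X]
    simp [kap]
  rw [h1]
  rcases Nat.eq_zero_or_pos (t a) with h | h
  · simp [h]
  · obtain ⟨m, hm⟩ : ∃ m, t a = m + 1 := ⟨t a - 1, by omega⟩
    rw [hm, Nat.add_sub_cancel, smul_eq_mul, nsmul_eq_mul, map_mul]
    simp only [map_natCast]
    ring

section

variable {c h L T1 : ℕ} (ν : Fin c → τ) (k : ρ → Fin c → ℂ) (E : Fin c → τ → ℂ)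
  (u : Ux ρ τ h L T1)

theorem om_inl_inl (i j : ρ) : omC ν k E (Sum.inl i) (Sum.inl j) = if j = i then 1 else 0 := by
  simp only [omC, Pi.sub_apply, Finset.sum_apply]
  rw [Finset.sum_eq_zero, sub_zero]
  · rw [Pi.single_apply]
    simp
  · intro l _
    rw [Pi.single_apply, if_neg (by simp)]

theorem om_inr_inl (a : τ) (j : ρ) : omC ν k E (Sum.inr a) (Sum.inl j) = 0 := by
  simp only [omC, Pi.sub_apply, Finset.sum_apply]
  rw [Finset.sum_eq_zero, sub_zero]
  · rw [Pi.single_apply, if_neg (by simp)]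
  · intro l _
    rw [Pi.single_apply, if_neg (by simp)]

theorem sum_single (t : τ → ℂ) (w : Fin c → ℂ) :
    ∑ b, t b * ∑ l, (Pi.single (Sum.inr (ν l)) (w l) : ρ ⊕ τ → ℂ) (Sum.inr b) =
      ∑ l, w l * t (ν l) := by
  simp only [Finset.mul_sum]
  rw [Finset.sum_comm]
  refine Finset.sum_congr rfl fun l _ => ?_
  rw [Finset.sum_eq_single (ν l)]
  · rw [Pi.single_eq_same, mul_comm]
  · intro b _ hb
    rw [Pi.single_apply, if_neg (by simpa using hb), mul_zero]
  · intro hn
    exact absurd (Finset.mem_univ _) hn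

theorem om_inl_sum (i : ρ) :
    ∑ b, ((u.2 b : ℕ) : ℂ) * omC ν k E (Sum.inl i) (Sum.inr b) = -(kmC ν k u i) := by
  simp only [omC, Pi.sub_apply, Finset.sum_apply, mul_sub, Finset.sum_sub_distrib]
  rw [sum_single ν (fun b => ((u.2 b : ℕ) : ℂ)) (k i)]
  rw [Finset.sum_eq_zero, zero_sub]
  · rfl
  · intro b _
    rw [Pi.single_apply, if_neg (by simp), mul_zero]

theorem om_inr_sum (a : τ) :
    ∑ b, ((u.2 b : ℕ) : ℂ) * omC ν k E (Sum.inr a) (Sum.inr b) = gaC ν E u a := by
  simp only [omC, Pi.sub_apply, Finset.sum_apply, mul_sub, Finset.sum_sub_distrib]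
  rw [sum_single ν (fun b => ((u.2 b : ℕ) : ℂ)) (fun l => E l a)]
  rw [Finset.sum_eq_single a]
  · rw [Pi.single_eq_same, mul_one]
    rfl
  · intro b _ hb
    rw [Pi.single_apply, if_neg (by simpa using hb), mul_zero]
  · intro hn
    exact absurd (Finset.mem_univ _) hn

/-- the polynomials which occur -/
noncomputable def cur (n : ρ ⊕ τ → ℕ) : MvPolynomial (ρ ⊕ τ) ℂ :=
  (∏ i, Polynomial.aeval (X (Sum.inl i) : MvPolynomial (ρ ⊕ τ) ℂ)
    (Gf 1 (-(kmC ν k u i)) (rp u i) (n (Sum.inl i)))) *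
    C (∏ a, gaC ν E u a ^ n (Sum.inr a)) * ∏ a, X (Sum.inr a) ^ (u.2 a : ℕ)

theorem dv_cur (n n' : ρ ⊕ τ → ℕ) (x : ρ ⊕ τ) (hx : n' x = n x + 1)
    (hn : ∀ y, y ≠ x → n' y = n y) : dv kap (omC ν k E x) (cur ν k E u n) = cur ν k E u n' := by
  unfold cur
  rw [Derivation.leibniz, Derivation.leibniz, dv_mon]
  have hC : ∀ z : ℂ, dv kap (omC ν k E x) (C z : MvPolynomial (ρ ⊕ τ) ℂ) = 0 := fun z =>
    Derivation.map_algebraMap _ z
  rw [hC, smul_zero, zero_add]
  simp only [smul_eq_mul]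
  rcases x with i | a
  · rw [leib_one (dv kap (omC ν k E (Sum.inl i))) _ i fun j hj => by
      rw [dv_inl, om_inl_inl, if_neg hj, map_zero, zero_mul], dv_inl, om_inl_inl, if_pos rfl,
      om_inl_sum]
    have h1 : ∏ a, gaC ν E u a ^ n' (Sum.inr a) = ∏ a, gaC ν E u a ^ n (Sum.inr a) :=
      Finset.prod_congr rfl fun a _ => by rw [hn _ (by simp)]
    have h2 : ∏ j ∈ Finset.univ.erase i, Polynomial.aeval
        (X (Sum.inl j) : MvPolynomial (ρ ⊕ τ) ℂ) (Gf 1 (-(kmC ν k u j)) (rp u j)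
          (n' (Sum.inl j))) = ∏ j ∈ Finset.univ.erase i, Polynomial.aeval
        (X (Sum.inl j) : MvPolynomial (ρ ⊕ τ) ℂ) (Gf 1 (-(kmC ν k u j)) (rp u j)
          (n (Sum.inl j))) :=
      Finset.prod_congr rfl fun j hj => by
        rw [hn (Sum.inl j) (by simpa using Finset.ne_of_mem_erase hj)]
    rw [h1, ← Finset.mul_prod_erase Finset.univ _ (Finset.mem_univ i),
      ← Finset.mul_prod_erase Finset.univ (fun j => Polynomial.aeval
        (X (Sum.inl j) : MvPolynomial (ρ ⊕ τ) ℂ) (Gf 1 (-(kmC ν k u j)) (rp u j)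
          (n' (Sum.inl j)))) (Finset.mem_univ i), h2, hx]
    have h3 : Gf 1 (-(kmC ν k u i)) (rp u i) (n (Sum.inl i) + 1) =
        Polynomial.C 1 * Polynomial.derivative (Gf 1 (-(kmC ν k u i)) (rp u i) (n (Sum.inl i))) +
        Polynomial.C (-(kmC ν k u i)) * Gf 1 (-(kmC ν k u i)) (rp u i) (n (Sum.inl i)) := rfl
    rw [h3]
    simp only [map_add, map_mul, Polynomial.aeval_C, map_one, MvPolynomial.algebraMap_eq]
    ring
  · rw [leib_eig (dv kap (omC ν k E (Sum.inr a))) Finset.univ _ (fun _ => 0) fun j _ => by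
      rw [dv_inl, om_inr_inl, map_zero, zero_mul, zero_mul], om_inr_sum]
    have h1 : ∏ b, gaC ν E u b ^ n' (Sum.inr b) =
        gaC ν E u a * ∏ b, gaC ν E u b ^ n (Sum.inr b) := by
      rw [← Finset.mul_prod_erase Finset.univ _ (Finset.mem_univ a),
        ← Finset.mul_prod_erase Finset.univ (fun b => gaC ν E u b ^ n (Sum.inr b))
          (Finset.mem_univ a), hx, pow_succ]
      have h2 : ∏ b ∈ Finset.univ.erase a, gaC ν E u b ^ n' (Sum.inr b) =
          ∏ b ∈ Finset.univ.erase a, gaC ν E u b ^ n (Sum.inr b) :=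
        Finset.prod_congr rfl fun b hb => by
          rw [hn (Sum.inr b) (by simpa using Finset.ne_of_mem_erase hb)]
      rw [h2]
      ring
    have h2 : ∀ j, n' (Sum.inl j) = n (Sum.inl j) := fun j => hn _ (by simp)
    simp only [h2, h1, map_mul, Finset.sum_const_zero, zero_mul]
    ring

omit [Fintype ρ] [Fintype τ] in
theorem lawful : LawfulBEq (ρ ⊕ τ) where
  eq_of_beq {a b} h := by
    rcases a with x | x <;> rcases b with y | y
    · change (x == y) = true at h
      rw [eq_of_beq h]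
    · exact absurd h Bool.false_ne_true
    · exact absurd h Bool.false_ne_true
    · change (x == y) = true at h
      rw [eq_of_beq h]
  rfl {a} := by
    rcases a with x | x
    · change (x == x) = true
      exact beq_self_eq_true x
    · change (x == x) = true
      exact beq_self_eq_true x

theorem foldr_cur (l : List (ρ ⊕ τ)) :
    l.foldr (fun a f => dv kap (omC ν k E a) f) (bas u) = cur ν k E u (fun x => l.count x) := by
  induction l with
  | nil =>
    simp [cur, bas, Gf]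
  | cons x l ih =>
    have hL : LawfulBEq (ρ ⊕ τ) := lawful
    rw [List.foldr_cons, ih]
    refine dv_cur ν k E u _ _ x List.count_cons_self fun y hy => ?_
    exact List.count_cons_of_ne (fun h => hy h.symm)

end

theorem pf_VALA : T_VALA := by
  intro ρ τ _ _ _ _ c h L T1 ν k E u l g
  rw [foldr_cur]
  unfold cur
  rw [map_mul, map_mul, eval_C, map_prod, map_prod, Complex.exp_sum]
  congr 1
  · congr 1
    refine Finset.prod_congr rfl fun i _ => ?_
    have h1 : ∀ P : Polynomial ℂ, eval (pt kap g)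
        (Polynomial.aeval (X (Sum.inl i) : MvPolynomial (ρ ⊕ τ) ℂ) P) =
          P.eval (g (Sum.inl i)) := by
      intro P
      induction P using Polynomial.induction_on' with
      | add p q hp hq => rw [map_add, map_add, hp, hq, Polynomial.eval_add]
      | monomial n a =>
        rw [Polynomial.aeval_monomial, map_mul, map_pow, eval_X, MvPolynomial.algebraMap_eq,
          eval_C, Polynomial.eval_monomial]
        simp [pt, kap]
    exact h1 _
  · refine Finset.prod_congr rfl fun a _ => ?_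
    rw [map_pow, eval_X, Complex.exp_nat_mul]
    simp [pt, kap]

end Pool.Agent.H56.HRA
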